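import Pool.Agent.H.MP_b63848_al.B

namespace Pool.Agent.Results.MP_b63848_al.Dec

open Pool.Agent.H.MP_b63848_al

/-- a nonempty word over the alphabet with m letters, written as a list of numbers -/
def word {m : ℕ} (u : FreeSemigroup (Fin m)) : List ℕ := (u.head :: u.tail).map Fin.val

/-- the subsemigroup generated by the listed pairs -/
def gen (m n : ℕ) (X : List (List ℕ × List ℕ)) :
    Subsemigroup (FreeSemigroup (Fin m) × FreeSemigroup (Fin n)) :=
  Subsemigroup.closure {g | (word g.1, word g.2) ∈ X}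

/-- every listed pair is a pair of nonempty words over the two alphabets -/
def Valid (m n : ℕ) (X : List (List ℕ × List ℕ)) : Prop :=
  ∀ x ∈ X, ∃ g : FreeSemigroup (Fin m) × FreeSemigroup (Fin n), x = (word g.1, word g.2)

def Subdirect {A B : Type} (S : Subsemigroup (FreeSemigroup A × FreeSemigroup B)) : Prop :=
  (∀ u, ∃ v, (u, v) ∈ S) ∧ (∀ v, ∃ u, (u, v) ∈ S)

def IsFiber {A B : Type} (S : Subsemigroup (FreeSemigroup A × FreeSemigroup B)) : Prop :=
  ∃ (Q : Type) (_ : Semigroup Q) (φ : FreeSemigroup A →ₙ* Q) (ψ : FreeSemigroup B →ₙ* Q),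
    Function.Surjective φ ∧ Function.Surjective ψ ∧ ∀ u v, (u, v) ∈ S ↔ φ u = ψ v

theorem word_mul {m : ℕ} (u v : FreeSemigroup (Fin m)) : word (u * v) = word u ++ word v := by
  simp [word]

theorem word_ne {m : ℕ} (u : FreeSemigroup (Fin m)) : word u ≠ [] := by simp [word]

theorem word_inj {m : ℕ} {u v : FreeSemigroup (Fin m)} (h : word u = word v) : u = v := by
  have := List.map_injective_iff.2 Fin.val_injective h
  simp only [List.cons.injEq] at this
  exact FreeSemigroup.ext this.1 this.2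

variable {m n : ℕ} {X : List (List ℕ × List ℕ)}

theorem toM {g : FreeSemigroup (Fin m) × FreeSemigroup (Fin n)} (h : g ∈ gen m n X) :
    M X (word g.1) (word g.2) := by
  induction h using Subsemigroup.closure_induction with
  | mem x hx => exact M.one hx
  | mul x y _ _ h1 h2 => simpa only [Prod.fst_mul, Prod.snd_mul, word_mul] using h1.app h2

theorem ofM (hV : Valid m n X) {u v : List ℕ} (h : M X u v) : (u = [] ∧ v = []) ∨
    ∃ g ∈ gen m n X, u = word g.1 ∧ v = word g.2 := by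
  induction h with
  | nil => exact .inl ⟨rfl, rfl⟩
  | cons hg _ ih =>
    obtain ⟨g, rfl⟩ := hV _ hg
    have hg' : g ∈ gen m n X := Subsemigroup.subset_closure hg
    rcases ih with ⟨rfl, rfl⟩ | ⟨k, hk, rfl, rfl⟩
    · exact .inr ⟨g, hg', by simp, by simp⟩
    · exact .inr ⟨g * k, mul_mem hg' hk, (word_mul _ _).symm, (word_mul _ _).symm⟩

theorem mem_iff (hV : Valid m n X) {u : FreeSemigroup (Fin m)} {v : FreeSemigroup (Fin n)} :
    (u, v) ∈ gen m n X ↔ M X (word u) (word v) := by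
  refine ⟨toM, fun h => ?_⟩
  rcases ofM hV h with ⟨h, -⟩ | ⟨⟨a, b⟩, hg, h1, h2⟩
  · exact absurd h (word_ne _)
  · rwa [word_inj h1, word_inj h2]

theorem good (hV : Valid m n X) (hS : Subdirect (gen m n X)) : Good X := by
  have h0 : ∀ g ∈ X, g.1 ≠ [] ∧ g.2 ≠ [] := fun x hx => by
    obtain ⟨g, rfl⟩ := hV x hx
    exact ⟨word_ne _, word_ne _⟩
  refine ⟨h0, fun x hx a ha => ?_, fun x hx a ha => ?_⟩
  · obtain ⟨g, rfl⟩ := hV x hx
    obtain ⟨b, -, rfl⟩ := List.mem_map.1 ha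
    obtain ⟨v, hv⟩ := hS.1 (.of b)
    rcases (toM hv).cases with ⟨h, -⟩ | ⟨k, hk, u', v', -, h, -⟩
    · exact absurd h (word_ne _)
    · refine ⟨k, hk, ?_⟩
      have h' : [b.val] = k.1 ++ u' := h
      rcases List.singleton_eq_append_iff.1 h' with h | h
      exacts [absurd h.1 (h0 k hk).1, h.1]
  · obtain ⟨g, rfl⟩ := hV x hx
    obtain ⟨b, -, rfl⟩ := List.mem_map.1 ha
    obtain ⟨v, hv⟩ := hS.2 (.of b)
    rcases (toM hv).cases with ⟨-, h⟩ | ⟨k, hk, u', v', -, -, h⟩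
    · exact absurd h (word_ne _)
    · refine ⟨k, hk, ?_⟩
      have h' : [b.val] = k.2 ++ v' := h
      rcases List.singleton_eq_append_iff.1 h' with h | h
      exacts [absurd h.1 (h0 k hk).2, h.1]

theorem fiber_of {A B : Type} {S : Subsemigroup (FreeSemigroup A × FreeSemigroup B)}
    (hS : Subdirect S) (hD : ∀ u v u' v', (u, v) ∈ S → (u', v) ∈ S → (u', v') ∈ S → (u, v') ∈ S) :
    IsFiber S := by
  let c : Con (FreeSemigroup A) :=
    { r := fun u u' => ∃ v, (u, v) ∈ S ∧ (u', v) ∈ S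
      iseqv := ⟨fun u => (hS.1 u).imp fun _ h => ⟨h, h⟩, fun ⟨v, h1, h2⟩ => ⟨v, h2, h1⟩,
        fun ⟨v, h1, h2⟩ ⟨w, h3, h4⟩ => ⟨w, hD _ _ _ _ h1 h2 h3, h4⟩⟩
      mul' := fun ⟨v, h1, h2⟩ ⟨w, h3, h4⟩ => ⟨v * w, mul_mem h1 h3, mul_mem h2 h4⟩ }
  choose f hf using hS.2
  have key : ∀ u v, (u, v) ∈ S ↔ (u : c.Quotient) = f v := fun u v => by
    rw [Con.eq]
    exact ⟨fun h => ⟨v, h, hf v⟩, fun ⟨w, h1, h2⟩ => hD _ _ _ _ h1 h2 (hf v)⟩
  refine ⟨c.Quotient, inferInstance, ⟨fun u => u, fun _ _ => rfl⟩, ⟨fun v => f v, fun v w => ?_⟩,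
    fun q => ?_, fun q => ?_, key⟩
  · exact ((key (f v * f w) (v * w)).1 (mul_mem (hf v) (hf w))).symm
  · induction q using Con.induction_on with
    | H u => exact ⟨u, rfl⟩
  · induction q using Con.induction_on with
    | H u =>
      obtain ⟨v, hv⟩ := hS.1 u
      exact ⟨v, ((key u v).1 hv).symm⟩

theorem dif_iff (hV : Valid m n X) (hS : Subdirect (gen m n X)) : Dif X ↔ IsFiber (gen m n X) := by
  constructor
  · intro hD
    refine fiber_of hS fun u v u' v' h1 h2 h3 => ?_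
    rw [mem_iff hV] at h1 h2 h3 ⊢
    exact hD _ _ _ _ h1 h2 h3
  · rintro ⟨Q, _, φ, ψ, -, -, h⟩ u v u' v' h1 h2 h3
    rcases ofM hV h2 with ⟨rfl, rfl⟩ | ⟨⟨a, b⟩, g2, rfl, rfl⟩
    · rcases ofM hV h1 with ⟨rfl, -⟩ | ⟨g, -, -, e⟩
      · exact h3
      · exact absurd e.symm (word_ne _)
    rcases ofM hV h1 with ⟨-, e⟩ | ⟨⟨a1, b1⟩, g1, rfl, e1⟩
    · exact absurd e (word_ne _)
    rcases ofM hV h3 with ⟨e, -⟩ | ⟨⟨a3, b3⟩, g3, e3, rfl⟩
    · exact absurd e (word_ne _)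
    obtain rfl : b = b1 := word_inj e1
    obtain rfl : a = a3 := word_inj e3
    exact (mem_iff hV).1 ((h _ _).2 (((h _ _).1 g1).trans (((h _ _).1 g2).symm.trans
      ((h _ _).1 g3))))

theorem result : ∃ f : ℕ × ℕ × List (List ℕ × List ℕ) → Bool, Computable f ∧
    ∀ m n X, Valid m n X → Subdirect (gen m n X) →
      (f (m, n, X) = true ↔ IsFiber (gen m n X)) := by
  obtain ⟨f, hf, e⟩ := ComputablePred.computable_iff.1 decid
  refine ⟨fun a => f a.2.2, hf.comp (Computable.snd.comp Computable.snd), fun m n X hV hS => ?_⟩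
  have := congrFun e X
  simp only [eq_iff_iff] at this
  rw [← dif_iff hV hS, ← this]
  simp [good hV hS]

end Pool.Agent.Results.MP_b63848_al.Dec
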